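import Pool.Agent.H.MP_0380a0_co.F

namespace Pool.Agent.Results.MP_0380a0_co.Univ

/-- Distance-hereditary: every connected induced subgraph is isometric. -/
def DH {V : Type} (G : SimpleGraph V) : Prop :=
  ∀ W : Set V, (G.induce W).Connected → ∀ u v : W, (G.induce W).edist u v = G.edist u.1 v.1

open Pool.Agent.H.MP_0380a0_co in
/-- A countable, vertex-transitive, distance-hereditary graph that contains every countable
distance-hereditary graph as an induced subgraph. -/
theorem result : ∃ (V : Type) (_ : Countable V) (U : SimpleGraph V), DH U ∧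
    (∀ a b : V, ∃ φ : U ≃g U, φ a = b) ∧
    ∀ (W : Type) [Countable W] (G : SimpleGraph W), DH G → Nonempty (G ↪g U) := by
  have : Countable Idx := (inferInstance : Countable (ℚ × Fin 4))
  refine ⟨FreeGroup (Finset Idx), FreeGroup.toWord_injective.countable, Cay U0, dhs_iff.1 (cay_dh U0_dh), cay_trans U0, ?_⟩
  intro W _ G hG
  obtain ⟨e⟩ := U0_univ (dhs_iff.2 hG)
  obtain ⟨f⟩ := cay_embed U0
  exact ⟨f.comp e⟩

end Pool.Agent.Results.MP_0380a0_co.Univ
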